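import Mathlib

/-!
Definitions: arrangements of pseudolines (graphs of continuous functions), isomorphism by a
homeomorphism of the plane, realisation by polynomials of bounded degree.
-/

namespace Pool.Agent.H182R2.PL

/-- The graphs of the functions `f i` form an arrangement of pseudolines: every `f i` is
continuous and for `i ≠ j` the difference `f i - f j` has exactly one zero and changes sign
there. -/
def IsArrangement {ι : Type} (f : ι → ℝ → ℝ) : Prop :=
  (∀ i, Continuous (f i)) ∧
  ∀ i j, i ≠ j → ∃ x, f i x = f j x ∧ (∀ y, f i y = f j y → y = x) ∧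
    ∀ y z, y < x → x < z → (f i y - f j y) * (f i z - f j z) < 0

/-- No three curves pass through a common point. -/
def IsSimple {ι : Type} (f : ι → ℝ → ℝ) : Prop :=
  ∀ i j k, i ≠ j → j ≠ k → i ≠ k → ∀ x, ¬ (f i x = f j x ∧ f j x = f k x)

/-- The graph of a function as a subset of the plane. -/
def curve (f : ℝ → ℝ) : Set (ℝ × ℝ) := {p | p.2 = f p.1}

/-- Two arrangements are isomorphic if a homeomorphism of the plane maps the curves of the one
bijectively onto the curves of the other. -/
def Isomorphic {ι : Type} (f g : ι → ℝ → ℝ) : Prop :=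
  ∃ (h : ℝ × ℝ ≃ₜ ℝ × ℝ) (σ : ι ≃ ι), ∀ i, h '' curve (f i) = curve (g (σ i))

/-- The arrangement `f` is `d`-stretchable: it is isomorphic to an arrangement whose curves are
graphs of real polynomials of degree at most `d`. -/
def Stretchable {ι : Type} (d : ℕ) (f : ι → ℝ → ℝ) : Prop :=
  ∃ P : ι → Polynomial ℝ, (∀ i, (P i).natDegree ≤ d) ∧
    IsArrangement (fun i x => (P i).eval x) ∧ Isomorphic f (fun i x => (P i).eval x)

/-- Combinatorial consequence of stretchability. -/
def Rl {ι : Type} (d : ℕ) (f : ι → ℝ → ℝ) : Prop :=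
  ∃ (P : ι → Polynomial ℝ) (φ : ι → ℝ → ℝ), (∀ i, (P i).natDegree ≤ d) ∧
    IsArrangement (fun i x => (P i).eval x) ∧ (∀ i, StrictMono (φ i) ∨ StrictAnti (φ i)) ∧
    ∀ i j x, f i x = f j x → (P i).eval (φ i x) = (P j).eval (φ i x)

lemma rl_of_stretchable {ι : Type} {d : ℕ} {f : ι → ℝ → ℝ} (hf : ∀ i, Continuous (f i))
    (h : Stretchable d f) : Rl d f := by
  obtain ⟨P, hP, hA, g, σ, hg⟩ := h
  have key : ∀ i x, (g (x, f i x)).2 = (P (σ i)).eval (g (x, f i x)).1 := by
    intro i x
    have h1 : g (x, f i x) ∈ g '' curve (f i) := ⟨(x, f i x), rfl, rfl⟩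
    rw [hg i] at h1
    exact h1
  refine ⟨fun i => P (σ i), fun i x => (g (x, f i x)).1, fun i => hP _, ?_, ?_, ?_⟩
  · refine ⟨fun i => hA.1 (σ i), fun i j hij => ?_⟩
    exact hA.2 (σ i) (σ j) (fun h => hij (σ.injective h))
  · intro i
    have hc : Continuous fun x => (g (x, f i x)).1 := by
      have := hf i
      fun_prop
    apply hc.strictMono_of_inj
    intro x y hxy
    have h1 := key i x
    have h2 := key i y
    have h3 : g (x, f i x) = g (y, f i y) := by
      apply Prod.ext hxy
      rw [h1, h2]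
      simp only at hxy
      rw [hxy]
    exact congrArg Prod.fst (g.injective h3)
  · intro i j x hx
    have h1 := key i x
    have h2 := key j x
    rw [← hx] at h2
    simp only
    rw [← h1, ← h2]

lemma Rl.restrict {ι κ : Type} {d : ℕ} {f : ι → ℝ → ℝ} {g : κ → ℝ → ℝ} (e : κ → ι)
    (he : Function.Injective e) (s : ℝ)
    (hg : ∀ i j x, g i x = g j x → f (e i) (x + s) = f (e j) (x + s)) (h : Rl d f) : Rl d g := by
  obtain ⟨P, φ, hP, hA, hφ, hr⟩ := h
  refine ⟨fun i => P (e i), fun i x => φ (e i) (x + s), fun i => hP _, ?_, ?_, ?_⟩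
  · exact ⟨fun i => hA.1 (e i), fun i j hij => hA.2 (e i) (e j) (fun h => hij (he h))⟩
  · intro i
    rcases hφ (e i) with h | h
    · left; intro x y hxy; exact h (by linarith)
    · right; intro x y hxy; exact h (by linarith)
  · intro i j x hx
    exact hr _ _ _ (hg i j x hx)

/-- the unique zero -/
lemma phi_eq {ι : Type} {f : ι → ℝ → ℝ} {P : ι → Polynomial ℝ} {φ : ι → ℝ → ℝ}
    (hA : IsArrangement (fun i x => (P i).eval x))
    (hr : ∀ i j x, f i x = f j x → (P i).eval (φ i x) = (P j).eval (φ i x))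
    {i j : ι} (hij : i ≠ j) {x : ℝ} (hx : f i x = f j x) : φ i x = φ j x := by
  obtain ⟨x0, _, h2, _⟩ := hA.2 i j hij
  have e1 := h2 _ (hr i j x hx)
  have e2 := h2 _ (hr j i x hx.symm).symm
  rw [e1, e2]

lemma isolated {ι : Type} {f : ι → ℝ → ℝ} {P : ι → Polynomial ℝ} {φ : ι → ℝ → ℝ}
    (hA : IsArrangement (fun i x => (P i).eval x))
    (hr : ∀ i j x, f i x = f j x → (P i).eval (φ i x) = (P j).eval (φ i x))
    {i j : ι} (hij : i ≠ j) {x : ℝ} (hx : f i x = f j x) :
    (∀ y, (P i).eval y = (P j).eval y → y = φ i x) ∧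
    ∀ y z, y < φ i x → φ i x < z →
      ((P i).eval y - (P j).eval y) * ((P i).eval z - (P j).eval z) < 0 := by
  obtain ⟨x0, _, h2, h3⟩ := hA.2 i j hij
  have e1 := h2 _ (hr i j x hx)
  rw [e1]
  exact ⟨h2, h3⟩

/-- alternating signs force the degree -/
lemma natDegree_of_alternating (F : Polynomial ℝ) (ξ : ℕ → ℝ) (L : ℕ) (s : ℝ)
    (hξ : ∀ k, k < L → ξ k < ξ (k + 1))
    (hs : ∀ k, k ≤ L → 0 < s * ((-1) ^ k * F.eval (ξ k))) : L ≤ F.natDegree := by
  have hF : F ≠ 0 := by
    rintro rfl
    have := hs 0 (Nat.zero_le _)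
    simp at this
  have hroot : ∀ k, k < L → ∃ r, ξ k < r ∧ r < ξ (k + 1) ∧ F.eval r = 0 := by
    intro k hk
    have h1 := hs k hk.le
    have h2 := hs (k + 1) hk
    have hlt := hξ k hk
    have hc : ContinuousOn (fun x => F.eval x) (Set.Icc (ξ k) (ξ (k + 1))) :=
      F.continuous.continuousOn
    have hprod : F.eval (ξ k) * F.eval (ξ (k + 1)) < 0 := by
      have h3 := mul_pos h1 h2
      have e : s * ((-1) ^ k * F.eval (ξ k)) * (s * ((-1) ^ (k + 1) * F.eval (ξ (k + 1))))
          = -((s * (-1) ^ k) ^ 2 * (F.eval (ξ k) * F.eval (ξ (k + 1)))) := by ring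
      rw [e] at h3
      by_contra hcon
      push Not at hcon
      have := mul_nonneg (sq_nonneg (s * (-1) ^ k)) hcon
      linarith
    rcases lt_trichotomy (F.eval (ξ k)) 0 with h | h | h
    · have h' : 0 < F.eval (ξ (k + 1)) := by
        by_contra hcon
        push Not at hcon
        have := mul_nonneg_of_nonpos_of_nonpos h.le hcon
        linarith
      obtain ⟨r, hr1, hr2⟩ := intermediate_value_Ioo hlt.le hc ⟨h, h'⟩
      exact ⟨r, hr1.1, hr1.2, hr2⟩
    · rw [h] at hprod; simp at hprod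
    · have h' : F.eval (ξ (k + 1)) < 0 := by
        by_contra hcon
        push Not at hcon
        have := mul_nonneg h.le hcon
        linarith
      obtain ⟨r, hr1, hr2⟩ := intermediate_value_Ioo' hlt.le hc ⟨h', h⟩
      exact ⟨r, hr1.1, hr1.2, hr2⟩
  choose! r hr1 hr2 hr3 using hroot
  have hmono : ∀ k l, k < l → l < L → r k < r l := by
    intro k l hkl hl
    have hge : ∀ m, k + 1 ≤ m → m ≤ L → ξ (k + 1) ≤ ξ m := by
      intro m hm
      induction m, hm using Nat.le_induction with
      | base => intro _; exact le_rfl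
      | succ m hm ih =>
        intro hmL
        exact (ih (by omega)).trans (hξ m (by omega)).le
    have h1 := hr2 k (by omega)
    have h2 := hge l hkl hl.le
    have h3 := hr1 l hl
    linarith
  have hinj : Set.InjOn r (Finset.range L : Set ℕ) := by
    intro a ha b hb hab
    simp only [Finset.coe_range, Set.mem_Iio] at ha hb
    rcases lt_trichotomy a b with h | h | h
    · exact absurd hab (hmono a b h hb).ne
    · exact h
    · exact absurd hab (hmono b a h ha).ne'
  have hsub : (Finset.range L).image r ⊆ F.roots.toFinset := by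
    intro x hx
    rw [Finset.mem_image] at hx
    obtain ⟨k, hk, rfl⟩ := hx
    rw [Multiset.mem_toFinset, Polynomial.mem_roots hF]
    exact hr3 k (Finset.mem_range.1 hk)
  calc L = (Finset.range L).card := (Finset.card_range L).symm
    _ = ((Finset.range L).image r).card := (Finset.card_image_of_injOn hinj).symm
    _ ≤ F.roots.toFinset.card := Finset.card_le_card hsub
    _ ≤ F.roots.card := Multiset.toFinset_card_le _
    _ ≤ F.natDegree := Polynomial.card_roots' F

lemma alt_sum_range (w : ℕ → ℝ) (L : ℕ) (hL : 1 ≤ L)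
    (hw : ∀ p, p + 1 < 2 * L → w (p + 1) < w p) :
    0 < ∑ p ∈ Finset.range (2 * L), (-1 : ℝ) ^ p * w p := by
  induction L, hL using Nat.le_induction with
  | base =>
    have := hw 0 (by norm_num)
    rw [show 2 * 1 = 1 + 1 by norm_num, Finset.sum_range_succ, Finset.sum_range_one]
    norm_num
    exact this
  | succ n hn ih =>
    have h1 := ih (fun p hp => hw p (by omega))
    have h2 := hw (2 * n) (by omega)
    rw [show 2 * (n + 1) = 2 * n + 1 + 1 by ring, Finset.sum_range_succ, Finset.sum_range_succ]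
    have e1 : (-1 : ℝ) ^ (2 * n) = 1 := by rw [pow_mul]; norm_num
    have e2 : (-1 : ℝ) ^ (2 * n + 1) = -1 := by rw [pow_succ, e1]; norm_num
    rw [e1, e2]
    linarith

lemma alt_sum (L : ℕ) (hL : 1 ≤ L) (p : Fin (2 * L) → ℕ) (hp : ∀ q, p q < 2 * L)
    (hinj : Function.Injective p) (v : Fin (2 * L) → ℝ)
    (hv : ∀ q q', p q < p q' → v q' < v q) :
    0 < ∑ q, (-1 : ℝ) ^ (p q) * v q := by
  let e0 : Fin (2 * L) → Fin (2 * L) := fun q => ⟨p q, hp q⟩
  have he0 : Function.Injective e0 := by
    intro a b hab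
    apply hinj
    exact congrArg Fin.val hab
  have hb : Function.Bijective e0 := Finite.injective_iff_bijective.1 he0
  let e : Fin (2 * L) ≃ Fin (2 * L) := Equiv.ofBijective e0 hb
  have he : ∀ q, ((e q : Fin (2 * L)) : ℕ) = p q := fun q => rfl
  let w : ℕ → ℝ := fun m => if h : m < 2 * L then v (e.symm ⟨m, h⟩) else 0
  have h1 : ∑ q, (-1 : ℝ) ^ (p q) * v q = ∑ m : Fin (2 * L), (-1 : ℝ) ^ (m : ℕ) * w m := by
    rw [← Equiv.sum_comp e (fun m : Fin (2 * L) => (-1 : ℝ) ^ (m : ℕ) * w m)]
    apply Finset.sum_congr rfl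
    intro q _
    rw [he q]
    congr 1
    simp only [w]
    rw [dif_pos (hp q)]
    congr 1
    rw [Equiv.eq_symm_apply]
    apply Fin.ext
    exact he q
  rw [h1, Fin.sum_univ_eq_sum_range (fun m => (-1 : ℝ) ^ m * w m) (2 * L)]
  apply alt_sum_range w L hL
  intro m hm
  simp only [w]
  rw [dif_pos hm, dif_pos (by omega)]
  apply hv
  rw [← he, ← he, Equiv.apply_symm_apply, Equiv.apply_symm_apply]
  simp

end Pool.Agent.H182R2.PL
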