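import Pool.Agent.H182R2.PL.HSA
import Pool.Agent.H182R2.PL.Defs

/-!
Arrangements given by heights: they are simple arrangements; orientation pattern.
-/

namespace Pool.Agent.H182R2.PL

namespace HSA

variable {ι : Type} (A : HSA ι)

lemma isArrangement : IsArrangement A.f := by
  refine ⟨A.f_cont, fun i j hij => ?_⟩
  rcases lt_trichotomy (A.H i 0) (A.H j 0) with h | h | h
  · obtain ⟨c, X, _, _, _, _, hX⟩ := A.exists_cross i j h
    refine ⟨X, hX.2.1, fun y hy => hX.eq_iff.1 hy, fun y z hy hz => ?_⟩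
    have h1 := hX.1 y hy
    have h2 := hX.2.2 z hz
    exact mul_neg_of_neg_of_pos (by linarith) (by linarith)
  · exact absurd (A.inj0 _ _ h) hij
  · obtain ⟨c, X, _, _, _, _, hX⟩ := A.exists_cross j i h
    refine ⟨X, hX.2.1.symm, fun y hy => hX.eq_iff.1 hy.symm, fun y z hy hz => ?_⟩
    have h1 := hX.1 y hy
    have h2 := hX.2.2 z hz
    exact mul_neg_of_pos_of_neg (by linarith) (by linarith)

lemma isSimple : IsSimple A.f := by
  rintro i j k hij hjk hik x ⟨h1, h2⟩
  have nij : A.H i 0 ≠ A.H j 0 := fun h => hij (A.inj0 _ _ h)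
  have njk : A.H j 0 ≠ A.H k 0 := fun h => hjk (A.inj0 _ _ h)
  have nik : A.H i 0 ≠ A.H k 0 := fun h => hik (A.inj0 _ _ h)
  rcases lt_or_gt_of_ne nij with a | a <;> rcases lt_or_gt_of_ne njk with b | b <;>
    rcases lt_or_gt_of_ne nik with c | c
  · exact A.no_triple i j k a b x h1 h2
  · exact A.no_triple i j k a b x h1 h2
  · exact A.no_triple i k j c b x (h1.trans h2) h2.symm
  · exact A.no_triple k i j c a x (h1.trans h2).symm h1
  · exact A.no_triple j i k a c x h1.symm (h1.trans h2)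
  · exact A.no_triple j k i b c x h2 (h1.trans h2).symm
  · exact A.no_triple k j i b a x h2.symm h1.symm
  · exact A.no_triple k j i b a x h2.symm h1.symm

/-- the three crossings of three curves, in the order of the initial heights -/
lemma three (a b c : ι) (hab : A.H a 0 < A.H b 0) (hbc : A.H b 0 < A.H c 0) {X Y Z : ℝ}
    (hX : Cr (A.f a) (A.f b) X) (hY : Cr (A.f b) (A.f c) Y) (hZ : Cr (A.f a) (A.f c) Z) :
    (X < Z ∧ Z < Y) ∨ (Y < Z ∧ Z < X) := by
  have hZe := hZ.2.1
  rcases lt_trichotomy X Z with h | h | h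
  · left
    refine ⟨h, ?_⟩
    have h1 := hX.2.2 Z h
    by_contra hcon
    push Not at hcon
    rcases lt_or_eq_of_le hcon with h2 | h2
    · have := hY.2.2 Z h2
      linarith
    · have := hY.2.1
      rw [h2] at this
      linarith
  · exfalso
    subst h
    exact A.no_triple a b c hab hbc X hX.2.1 (hX.2.1.symm.trans hZe)
  · right
    refine ⟨?_, h⟩
    have h1 := hX.1 Z h
    by_contra hcon
    push Not at hcon
    rcases lt_or_eq_of_le hcon with h2 | h2
    · have := hY.1 Z h2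
      linarith
    · have := hY.2.1
      rw [← h2] at this
      linarith

lemma pattern (φ : ι → ℝ → ℝ) (hφ : ∀ i j x, i ≠ j → A.f i x = A.f j x → φ i x = φ j x)
    (a b c : ι) (hab : A.H a 0 < A.H b 0) (hbc : A.H b 0 < A.H c 0)
    (h1 : StrictMono (φ a)) (h2 : StrictAnti (φ b)) (h3 : StrictMono (φ c)) : False := by
  obtain ⟨_, X, _, _, _, _, hX⟩ := A.exists_cross a b hab
  obtain ⟨_, Y, _, _, _, _, hY⟩ := A.exists_cross b c hbc
  obtain ⟨_, Z, _, _, _, _, hZ⟩ := A.exists_cross a c (hab.trans hbc)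
  have nab : a ≠ b := by rintro rfl; exact lt_irrefl _ hab
  have nbc : b ≠ c := by rintro rfl; exact lt_irrefl _ hbc
  have nac : a ≠ c := by rintro rfl; exact lt_irrefl _ (hab.trans hbc)
  have eX := hφ a b X nab hX.2.1
  have eY := hφ b c Y nbc hY.2.1
  have eZ := hφ a c Z nac hZ.2.1
  rcases A.three a b c hab hbc hX hY hZ with ⟨u, v⟩ | ⟨u, v⟩
  · have e1 := h1 u
    have e2 := h3 v
    have e3 := h2 (u.trans v)
    linarith
  · have e1 := h1 v
    have e2 := h3 u
    have e3 := h2 (u.trans v)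
    linarith

lemma pattern' (φ : ι → ℝ → ℝ) (hφ : ∀ i j x, i ≠ j → A.f i x = A.f j x → φ i x = φ j x)
    (a b c : ι) (hab : A.H a 0 < A.H b 0) (hbc : A.H b 0 < A.H c 0)
    (h1 : StrictAnti (φ a)) (h2 : StrictMono (φ b)) (h3 : StrictAnti (φ c)) : False := by
  refine A.pattern (fun i x => - φ i x) ?_ a b c hab hbc ?_ ?_ ?_
  · intro i j x hij h
    rw [hφ i j x hij h]
  · intro x y hxy; have := h1 hxy; simp only; linarith
  · intro x y hxy; have := h2 hxy; simp only; linarith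
  · intro x y hxy; have := h3 hxy; simp only; linarith

end HSA

lemma HSA.sum_lt {ι κ : Type} (A : HSA ι) (B : HSA κ) (i : ι) (j : κ) :
    (A.sum B).H (Sum.inr j) 0 < (A.sum B).H (Sum.inl i) 0 := by
  have h1 := A.bd i 0
  have h2 := B.bd j 0
  have h3 := A.M0
  have h4 := B.M0
  simp only [HSA.sum, Nat.zero_sub]
  rw [if_pos (by omega), if_pos (by omega)]
  omega

/-- one of the two parts is uniformly oriented -/
lemma HSA.uniform {ι κ : Type} (A : HSA ι) (B : HSA κ) (φ : ι ⊕ κ → ℝ → ℝ)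
    (hm : ∀ i, StrictMono (φ i) ∨ StrictAnti (φ i))
    (hφ : ∀ i j x, i ≠ j → (A.sum B).f i x = (A.sum B).f j x → φ i x = φ j x) :
    ((∀ i, StrictMono (φ (Sum.inl i))) ∨ (∀ i, StrictAnti (φ (Sum.inl i)))) ∨
    ((∀ j, StrictMono (φ (Sum.inr j))) ∨ (∀ j, StrictAnti (φ (Sum.inr j)))) := by
  have hno : ∀ i, StrictMono (φ i) → StrictAnti (φ i) → False := by
    intro i h1 h2
    have := h1 (show (0 : ℝ) < 1 by norm_num)
    have := h2 (show (0 : ℝ) < 1 by norm_num)
    linarith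
  by_contra hcon
  push Not at hcon
  obtain ⟨⟨⟨i, hi⟩, ⟨i', hi'⟩⟩, ⟨⟨j, hj⟩, ⟨j', hj'⟩⟩⟩ := hcon
  have hi2 : StrictAnti (φ (Sum.inl i)) := (hm _).resolve_left hi
  have hi2' : StrictMono (φ (Sum.inl i')) := (hm _).resolve_right hi'
  have hj2 : StrictAnti (φ (Sum.inr j)) := (hm _).resolve_left hj
  have hj2' : StrictMono (φ (Sum.inr j')) := (hm _).resolve_right hj'
  have hne : Sum.inl (β := κ) i ≠ Sum.inl i' := by
    intro h
    rw [h] at hi2
    exact hno _ hi2' hi2
  rcases lt_trichotomy ((A.sum B).H (Sum.inl i) 0) ((A.sum B).H (Sum.inl i') 0) with h | h | h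
  · exact (A.sum B).pattern φ hφ (Sum.inr j') (Sum.inl i) (Sum.inl i') (A.sum_lt B i j') h
      hj2' hi2 hi2'
  · exact hne ((A.sum B).inj0 _ _ h)
  · exact (A.sum B).pattern' φ hφ (Sum.inr j) (Sum.inl i') (Sum.inl i) (A.sum_lt B i' j) h
      hj2 hi2' hi2

end Pool.Agent.H182R2.PL
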