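import Pool.Agent.H182R2.PL.HSA

/-!
The basic block: `2 L` core curves whose word alternates at every cut, and helper curves
forcing the cuts.
-/

namespace Pool.Agent.H182R2.PL

/-- position (from the top, starting with 0) of the core curve `q` at stage `k` -/
def pos (L q k : ℕ) : ℕ :=
  if q < L then (if q + 1 + k ≤ L then q + k else 3 * L - 1 - k - q)
  else (if q + 1 ≤ L + k then k + L - 1 - q else q - k)

/-- the core curves `q < q'` are swapped between stage `mm L q q'` and the next one -/
def mm (L q q' : ℕ) : ℕ :=
  if q' < L then L - 1 - q else if L ≤ q then q' - L else min (q' - L) (L - 1 - q)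

lemma mm_lt {L q q' : ℕ} (_h : q < q') (h' : q' < 2 * L) : mm L q q' < L := by
  unfold mm; split_ifs <;> omega

lemma pos_lt_iff {L q q' k : ℕ} (h : q < q') (h' : q' < 2 * L) (hk : k ≤ L) :
    pos L q k < pos L q' k ↔ k ≤ mm L q q' := by
  unfold pos mm
  split_ifs <;> omega

lemma pos_lt_iff' {L q q' k : ℕ} (h : q < q') (h' : q' < 2 * L) (hk : k ≤ L) :
    pos L q' k < pos L q k ↔ mm L q q' < k := by
  unfold pos mm
  split_ifs <;> omega

lemma pos_zero {L q : ℕ} (_h : q < 2 * L) : pos L q 0 = q := by
  unfold pos; split_ifs <;> omega

lemma pos_bd {L q k : ℕ} (h : q < 2 * L) (hk : k ≤ L) : pos L q k < 2 * L := by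
  unfold pos; split_ifs <;> omega

lemma pos_parity {L q k : ℕ} (hL : L % 2 = 1) (h : q < 2 * L) (hk : k ≤ L) :
    (pos L q k + k) % 2 = q % 2 := by
  unfold pos; split_ifs <;> omega

lemma pos_inj {L q q' k : ℕ} (h : q < 2 * L) (h' : q' < 2 * L) (hk : k ≤ L)
    (he : pos L q k = pos L q' k) : q = q' := by
  rcases lt_trichotomy q q' with hlt | hlt | hlt
  · have h1 := pos_lt_iff hlt h' hk
    have h2 := pos_lt_iff' hlt h' hk
    omega
  · exact hlt
  · have h1 := pos_lt_iff hlt h hk
    have h2 := pos_lt_iff' hlt h hk
    omega

lemma pos_step {L q k : ℕ} (h : q < 2 * L) (hk : k < L) :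
    (pos L q k = L ∧ pos L q (k + 1) = 0) ∨ (pos L q k + 1 = L ∧ pos L q (k + 1) + 1 = 2 * L) ∨
    (pos L q k + 1 < L ∧ pos L q (k + 1) = pos L q k + 1) ∨
    (L < pos L q k ∧ pos L q (k + 1) + 1 = pos L q k) := by
  unfold pos; split_ifs <;> omega

/-- the index set of a block -/
abbrev C (L : ℕ) : Type := Fin (2 * L) ⊕ (Fin (L + 1) ⊕ Fin (L + 1))

/-- the heights -/
def BH (L : ℕ) : C L → ℕ → ℤ
  | Sum.inl q, t => -(pos L q (min (t / 3) L) : ℤ)
  | Sum.inr (Sum.inl k), t => if t ≤ 3 * (k : ℕ) then -(3 * L + 1) + k else 4 * L + 2 - k
  | Sum.inr (Sum.inr k), t => if t ≤ 3 * (k : ℕ) + 1 then 3 * L + 1 - k else -(4 * L + 2) + k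

lemma core_step (L t q : ℕ) (h : q < 2 * L) :
    pos L q (min (t / 3) L) < 2 * L ∧ pos L q (min ((t + 1) / 3) L) < 2 * L ∧
    ((pos L q (min ((t + 1) / 3) L) = pos L q (min (t / 3) L)) ∨
      (t % 3 = 2 ∧
       ((pos L q (min (t / 3) L) = L ∧ pos L q (min ((t + 1) / 3) L) = 0) ∨
        (pos L q (min (t / 3) L) + 1 = L ∧ pos L q (min ((t + 1) / 3) L) + 1 = 2 * L) ∨
        (pos L q (min (t / 3) L) + 1 < L ∧
          pos L q (min ((t + 1) / 3) L) = pos L q (min (t / 3) L) + 1) ∨
        (L < pos L q (min (t / 3) L) ∧
          pos L q (min ((t + 1) / 3) L) + 1 = pos L q (min (t / 3) L))))) := by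
  refine ⟨pos_bd h (min_le_right _ _), pos_bd h (min_le_right _ _), ?_⟩
  by_cases h1 : t % 3 = 2 ∧ t / 3 < L
  · right
    refine ⟨h1.1, ?_⟩
    rw [show min (t / 3) L = t / 3 by omega, show min ((t + 1) / 3) L = t / 3 + 1 by omega]
    exact pos_step h h1.2
  · left
    rw [show min ((t + 1) / 3) L = min (t / 3) L by omega]

/-- the block -/
def block (L : ℕ) : HSA (C L) where
  T := 3 * L + 2
  M := 4 * L + 2
  H := BH L
  M0 := by omega
  bd := by
    rintro (q | k | k) t
    · have := pos_bd q.2 (min_le_right (t / 3) L)
      simp only [BH]; omega
    · have := k.2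
      simp only [BH]; split_ifs <;> omega
    · have := k.2
      simp only [BH]; split_ifs <;> omega
  stab := by
    rintro (q | k | k) t h
    · simp only [BH]
      rw [show min (t / 3) L = min ((3 * L + 2) / 3) L by omega]
    · have := k.2
      simp only [BH]; rw [if_neg (by omega), if_neg (by omega)]
    · have := k.2
      simp only [BH]; rw [if_neg (by omega), if_neg (by omega)]
  inj0 := by
    rintro (q | k | k) (q' | k' | k') h
    · have h1 := pos_zero q.2
      have h2 := pos_zero q'.2
      simp only [BH, Nat.zero_div, Nat.zero_min, h1, h2] at h
      congr 1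
      apply Fin.ext; omega
    · exfalso
      have h1 := pos_zero q.2
      have := q.2
      have := k'.2
      simp only [BH, Nat.zero_div, Nat.zero_min, h1] at h
      rw [if_pos (by omega)] at h
      omega
    · exfalso
      have h1 := pos_zero q.2
      have := q.2
      have := k'.2
      simp only [BH, Nat.zero_div, Nat.zero_min, h1] at h
      rw [if_pos (by omega)] at h
      omega
    · exfalso
      have h1 := pos_zero q'.2
      have := q'.2
      have := k.2
      simp only [BH, Nat.zero_div, Nat.zero_min, h1] at h
      rw [if_pos (by omega)] at h
      omega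
    · have := k.2
      have := k'.2
      simp only [BH] at h
      rw [if_pos (by omega), if_pos (by omega)] at h
      congr 2
      apply Fin.ext; omega
    · exfalso
      have := k.2
      have := k'.2
      simp only [BH] at h
      rw [if_pos (by omega), if_pos (by omega)] at h
      omega
    · exfalso
      have h1 := pos_zero q'.2
      have := q'.2
      have := k.2
      simp only [BH, Nat.zero_div, Nat.zero_min, h1] at h
      rw [if_pos (by omega)] at h
      omega
    · exfalso
      have := k.2
      have := k'.2
      simp only [BH] at h
      rw [if_pos (by omega), if_pos (by omega)] at h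
      omega
    · have := k.2
      have := k'.2
      simp only [BH] at h
      rw [if_pos (by omega), if_pos (by omega)] at h
      congr 2
      apply Fin.ext; omega
  swap := by
    rintro (q | k | k) (q' | k' | k') h
    · -- core core
      have h1 := pos_zero q.2
      have h2 := pos_zero q'.2
      simp only [BH, Nat.zero_div, Nat.zero_min, h1, h2] at h
      have hlt : (q' : ℕ) < q := by omega
      have hm := mm_lt hlt q.2
      refine ⟨3 * mm L q' q + 2, by omega, ?_, ?_⟩
      · intro t ht
        simp only [BH]
        have := (pos_lt_iff hlt q.2 (min_le_right (t / 3) L)).2 (by omega)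
        omega
      · intro t ht
        simp only [BH]
        have := (pos_lt_iff' hlt q.2 (min_le_right (t / 3) L)).2 (by omega)
        omega
    · -- core g : impossible
      exfalso
      have h1 := pos_zero q.2
      have := q.2
      have := k'.2
      simp only [BH, Nat.zero_div, Nat.zero_min, h1] at h
      rw [if_pos (by omega)] at h
      omega
    · -- core h
      have hk := k'.2
      refine ⟨3 * (k' : ℕ) + 1, by omega, ?_, ?_⟩
      · intro t ht
        have := pos_bd q.2 (min_le_right (t / 3) L)
        simp only [BH]
        rw [if_pos ht]; omega
      · intro t ht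
        have := pos_bd q.2 (min_le_right (t / 3) L)
        simp only [BH]
        rw [if_neg (by omega)]; omega
    · -- g core
      have hk := k.2
      refine ⟨3 * (k : ℕ), by omega, ?_, ?_⟩
      · intro t ht
        have := pos_bd q'.2 (min_le_right (t / 3) L)
        simp only [BH]
        rw [if_pos ht]; omega
      · intro t ht
        have := pos_bd q'.2 (min_le_right (t / 3) L)
        simp only [BH]
        rw [if_neg (by omega)]; omega
    · -- g g
      have h1 := k.2
      have h2 := k'.2
      simp only [BH] at h
      rw [if_pos (by omega), if_pos (by omega)] at h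
      refine ⟨3 * (k : ℕ), by omega, ?_, ?_⟩
      · intro t ht
        simp only [BH]
        rw [if_pos ht, if_pos (by omega)]; omega
      · intro t ht
        simp only [BH]
        rw [if_neg (show ¬ t ≤ 3 * (k : ℕ) by omega)]
        split_ifs <;> omega
    · -- g h
      have h1 := k.2
      have h2 := k'.2
      refine ⟨min (3 * (k : ℕ)) (3 * (k' : ℕ) + 1), by omega, ?_, ?_⟩
      · intro t ht
        simp only [BH]
        rw [if_pos (by omega), if_pos (by omega)]; omega
      · intro t ht
        simp only [BH]
        split_ifs <;> omega
    · -- h core : impossible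
      exfalso
      have h1 := pos_zero q'.2
      have := q'.2
      have := k.2
      simp only [BH, Nat.zero_div, Nat.zero_min, h1] at h
      rw [if_pos (by omega)] at h
      omega
    · -- h g : impossible
      exfalso
      have := k.2
      have := k'.2
      simp only [BH] at h
      rw [if_pos (by omega), if_pos (by omega)] at h
      omega
    · -- h h
      have h1 := k.2
      have h2 := k'.2
      simp only [BH] at h
      rw [if_pos (by omega), if_pos (by omega)] at h
      refine ⟨3 * (k' : ℕ) + 1, by omega, ?_, ?_⟩
      · intro t ht
        simp only [BH]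
        rw [if_pos (show t ≤ 3 * (k : ℕ) + 1 by omega), if_pos ht]; omega
      · intro t ht
        simp only [BH]
        rw [if_neg (show ¬ t ≤ 3 * (k' : ℕ) + 1 by omega)]
        split_ifs <;> omega
  tri := by
    have hg : ∀ (L t k : ℕ), k ≤ L →
        ((if t ≤ 3 * k then -(3 * (L : ℤ) + 1) + k else 4 * L + 2 - k) =
          (if t + 1 ≤ 3 * k then -(3 * (L : ℤ) + 1) + k else 4 * L + 2 - k)) ∨ t = 3 * k := by
      intro L t k hk
      by_cases h : t = 3 * k
      · exact Or.inr h
      · left; split_ifs <;> omega
    have hh : ∀ (L t k : ℕ), k ≤ L →
        ((if t ≤ 3 * k + 1 then (3 * (L : ℤ) + 1) - k else -(4 * L + 2) + k) =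
          (if t + 1 ≤ 3 * k + 1 then (3 * (L : ℤ) + 1) - k else -(4 * L + 2) + k)) ∨
          t = 3 * k + 1 := by
      intro L t k hk
      by_cases h : t = 3 * k + 1
      · exact Or.inr h
      · left; split_ifs <;> omega
    have hgb : ∀ (L t k : ℕ), k ≤ L →
        ((if t ≤ 3 * k then -(3 * (L : ℤ) + 1) + k else 4 * L + 2 - k) < -(2 * L)) ∨
        (0 < (if t ≤ 3 * k then -(3 * (L : ℤ) + 1) + k else 4 * L + 2 - k)) := by
      intro L t k hk
      split_ifs <;> omega
    have hhb : ∀ (L t k : ℕ), k ≤ L →
        ((if t ≤ 3 * k + 1 then (3 * (L : ℤ) + 1) - k else -(4 * L + 2) + k) < -(2 * L)) ∨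
        (0 < (if t ≤ 3 * k + 1 then (3 * (L : ℤ) + 1) - k else -(4 * L + 2) + k)) := by
      intro L t k hk
      split_ifs <;> omega
    rintro (i | i | i) (j | j | j) (k | k | k) t h1 h2 h3 h4 <;> simp only [BH] at h1 h2 h3 h4
    · have a1 := core_step L t i i.2
      have a2 := core_step L t j j.2
      have a3 := core_step L t k k.2
      omega
    · have a1 := core_step L t i i.2
      have a2 := core_step L t j j.2
      have a3 := hg L t k (by omega)
      have a4 := hgb L t k (by omega)
      have a5 := hgb L (t + 1) k (by omega)
      omega
    · have a1 := core_step L t i i.2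
      have a2 := core_step L t j j.2
      have a3 := hh L t k (by omega)
      have a4 := hhb L t k (by omega)
      have a5 := hhb L (t + 1) k (by omega)
      omega
    · have a1 := core_step L t i i.2
      have a2 := hg L t j (by omega)
      have a3 := hgb L t j (by omega)
      have a4 := hgb L (t + 1) j (by omega)
      have a5 := core_step L t k k.2
      omega
    · have a1 := core_step L t i i.2
      have a2 := hg L t j (by omega)
      have a3 := hgb L t j (by omega)
      have a4 := hgb L (t + 1) j (by omega)
      have a5 := hg L t k (by omega)
      have a6 := hgb L t k (by omega)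
      have a7 := hgb L (t + 1) k (by omega)
      omega
    · have a1 := core_step L t i i.2
      have a2 := hg L t j (by omega)
      have a3 := hgb L t j (by omega)
      have a4 := hgb L (t + 1) j (by omega)
      have a5 := hh L t k (by omega)
      have a6 := hhb L t k (by omega)
      have a7 := hhb L (t + 1) k (by omega)
      omega
    · have a1 := core_step L t i i.2
      have a2 := hh L t j (by omega)
      have a3 := hhb L t j (by omega)
      have a4 := hhb L (t + 1) j (by omega)
      have a5 := core_step L t k k.2
      omega
    · have a1 := core_step L t i i.2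
      have a2 := hh L t j (by omega)
      have a3 := hhb L t j (by omega)
      have a4 := hhb L (t + 1) j (by omega)
      have a5 := hg L t k (by omega)
      have a6 := hgb L t k (by omega)
      have a7 := hgb L (t + 1) k (by omega)
      omega
    · have a1 := core_step L t i i.2
      have a2 := hh L t j (by omega)
      have a3 := hhb L t j (by omega)
      have a4 := hhb L (t + 1) j (by omega)
      have a5 := hh L t k (by omega)
      have a6 := hhb L t k (by omega)
      have a7 := hhb L (t + 1) k (by omega)
      omega
    · have a1 := hg L t i (by omega)
      have a2 := hgb L t i (by omega)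
      have a3 := hgb L (t + 1) i (by omega)
      have a4 := core_step L t j j.2
      have a5 := core_step L t k k.2
      omega
    · have a1 := hg L t i (by omega)
      have a2 := hgb L t i (by omega)
      have a3 := hgb L (t + 1) i (by omega)
      have a4 := core_step L t j j.2
      have a5 := hg L t k (by omega)
      have a6 := hgb L t k (by omega)
      have a7 := hgb L (t + 1) k (by omega)
      omega
    · have a1 := hg L t i (by omega)
      have a2 := hgb L t i (by omega)
      have a3 := hgb L (t + 1) i (by omega)
      have a4 := core_step L t j j.2
      have a5 := hh L t k (by omega)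
      have a6 := hhb L t k (by omega)
      have a7 := hhb L (t + 1) k (by omega)
      omega
    · have a1 := hg L t i (by omega)
      have a2 := hgb L t i (by omega)
      have a3 := hgb L (t + 1) i (by omega)
      have a4 := hg L t j (by omega)
      have a5 := hgb L t j (by omega)
      have a6 := hgb L (t + 1) j (by omega)
      have a7 := core_step L t k k.2
      omega
    · have a1 := hg L t i (by omega)
      have a2 := hgb L t i (by omega)
      have a3 := hgb L (t + 1) i (by omega)
      have a4 := hg L t j (by omega)
      have a5 := hgb L t j (by omega)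
      have a6 := hgb L (t + 1) j (by omega)
      have a7 := hg L t k (by omega)
      have a8 := hgb L t k (by omega)
      have a9 := hgb L (t + 1) k (by omega)
      omega
    · have a1 := hg L t i (by omega)
      have a2 := hgb L t i (by omega)
      have a3 := hgb L (t + 1) i (by omega)
      have a4 := hg L t j (by omega)
      have a5 := hgb L t j (by omega)
      have a6 := hgb L (t + 1) j (by omega)
      have a7 := hh L t k (by omega)
      have a8 := hhb L t k (by omega)
      have a9 := hhb L (t + 1) k (by omega)
      omega
    · have a1 := hg L t i (by omega)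
      have a2 := hgb L t i (by omega)
      have a3 := hgb L (t + 1) i (by omega)
      have a4 := hh L t j (by omega)
      have a5 := hhb L t j (by omega)
      have a6 := hhb L (t + 1) j (by omega)
      have a7 := core_step L t k k.2
      omega
    · have a1 := hg L t i (by omega)
      have a2 := hgb L t i (by omega)
      have a3 := hgb L (t + 1) i (by omega)
      have a4 := hh L t j (by omega)
      have a5 := hhb L t j (by omega)
      have a6 := hhb L (t + 1) j (by omega)
      have a7 := hg L t k (by omega)
      have a8 := hgb L t k (by omega)
      have a9 := hgb L (t + 1) k (by omega)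
      omega
    · have a1 := hg L t i (by omega)
      have a2 := hgb L t i (by omega)
      have a3 := hgb L (t + 1) i (by omega)
      have a4 := hh L t j (by omega)
      have a5 := hhb L t j (by omega)
      have a6 := hhb L (t + 1) j (by omega)
      have a7 := hh L t k (by omega)
      have a8 := hhb L t k (by omega)
      have a9 := hhb L (t + 1) k (by omega)
      omega
    · have a1 := hh L t i (by omega)
      have a2 := hhb L t i (by omega)
      have a3 := hhb L (t + 1) i (by omega)
      have a4 := core_step L t j j.2
      have a5 := core_step L t k k.2
      omega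
    · have a1 := hh L t i (by omega)
      have a2 := hhb L t i (by omega)
      have a3 := hhb L (t + 1) i (by omega)
      have a4 := core_step L t j j.2
      have a5 := hg L t k (by omega)
      have a6 := hgb L t k (by omega)
      have a7 := hgb L (t + 1) k (by omega)
      omega
    · have a1 := hh L t i (by omega)
      have a2 := hhb L t i (by omega)
      have a3 := hhb L (t + 1) i (by omega)
      have a4 := core_step L t j j.2
      have a5 := hh L t k (by omega)
      have a6 := hhb L t k (by omega)
      have a7 := hhb L (t + 1) k (by omega)
      omega
    · have a1 := hh L t i (by omega)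
      have a2 := hhb L t i (by omega)
      have a3 := hhb L (t + 1) i (by omega)
      have a4 := hg L t j (by omega)
      have a5 := hgb L t j (by omega)
      have a6 := hgb L (t + 1) j (by omega)
      have a7 := core_step L t k k.2
      omega
    · have a1 := hh L t i (by omega)
      have a2 := hhb L t i (by omega)
      have a3 := hhb L (t + 1) i (by omega)
      have a4 := hg L t j (by omega)
      have a5 := hgb L t j (by omega)
      have a6 := hgb L (t + 1) j (by omega)
      have a7 := hg L t k (by omega)
      have a8 := hgb L t k (by omega)
      have a9 := hgb L (t + 1) k (by omega)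
      omega
    · have a1 := hh L t i (by omega)
      have a2 := hhb L t i (by omega)
      have a3 := hhb L (t + 1) i (by omega)
      have a4 := hg L t j (by omega)
      have a5 := hgb L t j (by omega)
      have a6 := hgb L (t + 1) j (by omega)
      have a7 := hh L t k (by omega)
      have a8 := hhb L t k (by omega)
      have a9 := hhb L (t + 1) k (by omega)
      omega
    · have a1 := hh L t i (by omega)
      have a2 := hhb L t i (by omega)
      have a3 := hhb L (t + 1) i (by omega)
      have a4 := hh L t j (by omega)
      have a5 := hhb L t j (by omega)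
      have a6 := hhb L (t + 1) j (by omega)
      have a7 := core_step L t k k.2
      omega
    · have a1 := hh L t i (by omega)
      have a2 := hhb L t i (by omega)
      have a3 := hhb L (t + 1) i (by omega)
      have a4 := hh L t j (by omega)
      have a5 := hhb L t j (by omega)
      have a6 := hhb L (t + 1) j (by omega)
      have a7 := hg L t k (by omega)
      have a8 := hgb L t k (by omega)
      have a9 := hgb L (t + 1) k (by omega)
      omega
    · have a1 := hh L t i (by omega)
      have a2 := hhb L t i (by omega)
      have a3 := hhb L (t + 1) i (by omega)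
      have a4 := hh L t j (by omega)
      have a5 := hhb L t j (by omega)
      have a6 := hhb L (t + 1) j (by omega)
      have a7 := hh L t k (by omega)
      have a8 := hhb L t k (by omega)
      have a9 := hhb L (t + 1) k (by omega)
      omega

end Pool.Agent.H182R2.PL
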