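import Pool.Agent.H182R2.PL.Arr
import Pool.Agent.H182R2.PL.Block

/-!
The block forces a large degree.
-/

namespace Pool.Agent.H182R2.PL

/-- `s (p - q)` is positive before `Y` and negative after `Y`. -/
def Sg (s : ℝ) (p q : ℝ → ℝ) (Y : ℝ) : Prop :=
  (∀ y, y < Y → 0 < s * (p y - q y)) ∧ (∀ y, Y < y → s * (p y - q y) < 0)

lemma sg_exists {p q : ℝ → ℝ} {Y : ℝ}
    (h : ∀ y z, y < Y → Y < z → (p y - q y) * (p z - q z) < 0) :
    ∃ s : ℝ, (s = 1 ∨ s = -1) ∧ Sg s p q Y := by
  have h0 : ∀ z, Y < z → (p (Y - 1) - q (Y - 1)) * (p z - q z) < 0 := fun z hz =>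
    h (Y - 1) z (by linarith) hz
  have h1 : ∀ y, y < Y → (p y - q y) * (p (Y + 1) - q (Y + 1)) < 0 := fun y hy =>
    h y (Y + 1) hy (by linarith)
  have h2 := h (Y - 1) (Y + 1) (by linarith) (by linarith)
  rcases lt_trichotomy (p (Y - 1) - q (Y - 1)) 0 with g | g | g
  · have g' : 0 < p (Y + 1) - q (Y + 1) := by
      by_contra hcon
      push Not at hcon
      have := mul_nonneg_of_nonpos_of_nonpos g.le hcon
      linarith
    refine ⟨-1, Or.inr rfl, ?_, ?_⟩
    · intro y hy
      have := h1 y hy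
      by_contra hcon
      push Not at hcon
      have h3 : 0 ≤ p y - q y := by linarith
      have := mul_nonneg h3 g'.le
      linarith
    · intro y hy
      have := h0 y hy
      by_contra hcon
      push Not at hcon
      have h3 : p y - q y ≤ 0 := by linarith
      have := mul_nonneg_of_nonpos_of_nonpos g.le h3
      linarith
  · rw [g] at h2; linarith
  · have g' : p (Y + 1) - q (Y + 1) < 0 := by
      by_contra hcon
      push Not at hcon
      have := mul_nonneg g.le hcon
      linarith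
    refine ⟨1, Or.inl rfl, ?_, ?_⟩
    · intro y hy
      have := h1 y hy
      by_contra hcon
      push Not at hcon
      have h3 : p y - q y ≤ 0 := by linarith
      have := mul_nonneg_of_nonpos_of_nonpos h3 g'.le
      linarith
    · intro y hy
      have := h0 y hy
      by_contra hcon
      push Not at hcon
      have h3 : 0 ≤ p y - q y := by linarith
      have := mul_nonneg g.le h3
      linarith

lemma sg_triple {a b c : ℝ → ℝ} {s t u X Y Z : ℝ} (hs : s = 1 ∨ s = -1) (ht : t = 1 ∨ t = -1)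
    (hu : u = 1 ∨ u = -1) (h1 : Sg s a b X) (h2 : Sg t b c Y) (h3 : Sg u a c Z)
    (hZ : a Z = c Z) (ho : (X < Z ∧ Z < Y) ∨ (Y < Z ∧ Z < X)) : s = t ∧ t = u := by
  have hst : s = t := by
    rcases ho with ⟨o1, o2⟩ | ⟨o1, o2⟩
    · have e1 := h1.2 Z o1
      have e2 := h2.1 Z o2
      rcases hs with rfl | rfl <;> rcases ht with rfl | rfl
      · rfl
      · exfalso; linarith
      · exfalso; linarith
      · rfl
    · have e1 := h1.1 Z o2
      have e2 := h2.2 Z o1
      rcases hs with rfl | rfl <;> rcases ht with rfl | rfl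
      · rfl
      · exfalso; linarith
      · exfalso; linarith
      · rfl
  subst hst
  refine ⟨rfl, ?_⟩
  have m1 : min X (min Y Z) ≤ X := min_le_left _ _
  have m2 : min X (min Y Z) ≤ Y := (min_le_right _ _).trans (min_le_left _ _)
  have m3 : min X (min Y Z) ≤ Z := (min_le_right _ _).trans (min_le_right _ _)
  have e1 := h1.1 (min X (min Y Z) - 1) (by linarith)
  have e2 := h2.1 (min X (min Y Z) - 1) (by linarith)
  have e3 := h3.1 (min X (min Y Z) - 1) (by linarith)
  rcases hs with rfl | rfl <;> rcases hu with rfl | rfl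
  · rfl
  · exfalso; linarith
  · exfalso; linarith
  · rfl

lemma core_cross (L : ℕ) (q q' : Fin (2 * L)) (h : (q : ℕ) < q') :
    ∃ X : ℝ, ((3 * mm L q q' + 2 : ℕ) : ℝ) < X ∧ X < ((3 * mm L q q' + 3 : ℕ) : ℝ) ∧
      HSA.Cr ((block L).f (Sum.inl q')) ((block L).f (Sum.inl q)) X := by
  have hm := mm_lt h q'.2
  obtain ⟨h1, h2, h3⟩ := (block L).cross (Sum.inl q') (Sum.inl q) (3 * mm L q q' + 2)
    (by
      intro t ht
      have := (pos_lt_iff h q'.2 (min_le_right (t / 3) L)).2 (by omega)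
      simp only [block, BH]
      omega)
    (by
      intro t ht
      have := (pos_lt_iff' h q'.2 (min_le_right (t / 3) L)).2 (by omega)
      simp only [block, BH]
      omega)
  refine ⟨_, h1, ?_, h3⟩
  refine h2.trans_le ?_
  push_cast
  linarith

lemma core_const (L k : ℕ) (hk : k ≤ L) (q : Fin (2 * L)) (x : ℝ) (h0 : ((3 * k : ℕ) : ℝ) ≤ x)
    (h1 : x ≤ ((3 * k + 2 : ℕ) : ℝ)) :
    (block L).f (Sum.inl q) x = -(pos L q k : ℝ) := by
  rcases le_or_gt x ((3 * k : ℕ) + 1) with h | h
  · rw [HSA.f_eq _ _ x (3 * k) h0 h]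
    simp only [block, BH]
    rw [show min (3 * k / 3) L = k by omega, show min ((3 * k + 1) / 3) L = k by omega]
    push_cast
    ring
  · rw [HSA.f_eq _ _ x (3 * k + 1) (by push_cast at h ⊢; linarith)
      (by push_cast at h1 ⊢; linarith)]
    simp only [block, BH]
    rw [show min ((3 * k + 1) / 3) L = k by omega, show min ((3 * k + 1 + 1) / 3) L = k by omega]
    push_cast
    ring

lemma cross_g (L k : ℕ) (hk : k < L + 1) (q : Fin (2 * L)) :
    ∃ X : ℝ, ((3 * k : ℕ) : ℝ) < X ∧ X < ((3 * k + 1 : ℕ) : ℝ) ∧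
      HSA.Cr ((block L).f (Sum.inr (Sum.inl ⟨k, hk⟩))) ((block L).f (Sum.inl q)) X := by
  obtain ⟨h1, h2, h3⟩ := (block L).cross (Sum.inr (Sum.inl ⟨k, hk⟩)) (Sum.inl q) (3 * k)
    (by
      intro t ht
      have := pos_bd q.2 (min_le_right (t / 3) L)
      simp only [block, BH]
      rw [if_pos ht]; omega)
    (by
      intro t ht
      have := pos_bd q.2 (min_le_right (t / 3) L)
      simp only [block, BH]
      rw [if_neg (by omega)]; omega)
  refine ⟨_, h1, ?_, h3⟩
  refine h2.trans_le ?_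
  push_cast
  linarith

lemma cross_h (L k : ℕ) (hk : k < L + 1) (q : Fin (2 * L)) :
    ∃ X : ℝ, ((3 * k + 1 : ℕ) : ℝ) < X ∧ X < ((3 * k + 2 : ℕ) : ℝ) ∧
      HSA.Cr ((block L).f (Sum.inl q)) ((block L).f (Sum.inr (Sum.inr ⟨k, hk⟩))) X := by
  obtain ⟨h1, h2, h3⟩ := (block L).cross (Sum.inl q) (Sum.inr (Sum.inr ⟨k, hk⟩)) (3 * k + 1)
    (by
      intro t ht
      have := pos_bd q.2 (min_le_right (t / 3) L)
      simp only [block, BH]
      rw [if_pos ht]; omega)
    (by
      intro t ht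
      have := pos_bd q.2 (min_le_right (t / 3) L)
      simp only [block, BH]
      rw [if_neg (by omega)]; omega)
  refine ⟨_, h1, ?_, h3⟩
  refine h2.trans_le ?_
  push_cast
  linarith

/-- the cut condition: swapped pairs are left of unswapped pairs -/
lemma cut_lt {L k : ℕ} (hk : k ≤ L) (φ : C L → ℝ → ℝ) (hm : ∀ i, StrictMono (φ i))
    (hφ : ∀ i j x, i ≠ j → (block L).f i x = (block L).f j x → φ i x = φ j x)
    (q q' r r' : Fin (2 * L))
    (h1 : mm L q q' < k) (h2 : k ≤ mm L r r') (X X' : ℝ)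
    (hX : X < ((3 * mm L q q' + 3 : ℕ) : ℝ)) (hX' : ((3 * mm L r r' + 2 : ℕ) : ℝ) < X')
    : φ (Sum.inl q) X < φ (Sum.inl r') X' := by
  obtain ⟨G, g1, g2, g3⟩ := cross_g L k (by omega) q
  obtain ⟨G', g1', g2', g3'⟩ := cross_g L k (by omega) r'
  obtain ⟨H, e1, e2, e3⟩ := cross_h L k (by omega) q
  obtain ⟨H', e1', e2', e3'⟩ := cross_h L k (by omega) r'
  have n1 : ∀ (q : Fin (2 * L)), (Sum.inr (Sum.inl ⟨k, by omega⟩) : C L) ≠ Sum.inl q := by
    intro q h; cases h
  have n2 : ∀ (q : Fin (2 * L)), (Sum.inl q : C L) ≠ Sum.inr (Sum.inr ⟨k, by omega⟩) := by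
    intro q h; cases h
  have a1 := hφ _ _ G (n1 q) g3.2.1
  have a2 := hφ _ _ G' (n1 r') g3'.2.1
  have b1 := hφ _ _ H (n2 q) e3.2.1
  have b2 := hφ _ _ H' (n2 r') e3'.2.1
  have hXG : X < G := by
    have : ((3 * mm L q q' + 3 : ℕ) : ℝ) ≤ ((3 * k : ℕ) : ℝ) := by exact_mod_cast (by omega)
    linarith
  have hXH : H' < X' := by
    have : ((3 * k + 2 : ℕ) : ℝ) ≤ ((3 * mm L r r' + 2 : ℕ) : ℝ) := by exact_mod_cast (by omega)
    linarith
  have hGH : G < H := by
    have : ((3 * k : ℕ) : ℝ) + 1 = ((3 * k + 1 : ℕ) : ℝ) := by push_cast; ring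
    linarith
  have hGH' : G' < H' := by
    have : ((3 * k : ℕ) : ℝ) + 1 = ((3 * k + 1 : ℕ) : ℝ) := by push_cast; ring
    linarith
  have c1 := hm (Sum.inl q) hXG
  have c2 := hm (Sum.inl r') hXH
  have c3 := hm (Sum.inl q) hGH
  have c4 := hm (Sum.inl r') hGH'
  have k1 : ((3 * k + 1 : ℕ) : ℝ) ≤ ((3 * k + 2 : ℕ) : ℝ) := by exact_mod_cast (by omega)
  have k2 : ((3 * k : ℕ) : ℝ) ≤ ((3 * k + 1 : ℕ) : ℝ) := by exact_mod_cast (by omega)
  rcases lt_trichotomy (pos L q k) (pos L r' k) with h | h | h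
  · -- `q` above `r'` : use the descending helper
    have hlt : H < H' := by
      by_contra hcon
      push Not at hcon
      have v1 := core_const L k hk q H (by linarith) (by linarith)
      have v2 := core_const L k hk r' H (by linarith) (by linarith)
      have v3 : (pos L q k : ℝ) < pos L r' k := by exact_mod_cast h
      have v4 := e3.2.1
      rcases lt_or_eq_of_le hcon with hcon' | hcon'
      · have := e3'.2.2 H hcon'
        linarith
      · have := e3'.2.1
        rw [hcon'] at this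
        linarith
    have := hm (Sum.inr (Sum.inr ⟨k, by omega⟩)) hlt
    linarith
  · have : q = r' := by
      have := pos_inj q.2 r'.2 hk h
      exact Fin.ext this
    subst this
    have hGH2 : G < H' := by linarith
    have := hm (Sum.inl q) hGH2
    linarith
  · -- `q` below `r'` : use the ascending helper
    have hlt : G < G' := by
      by_contra hcon
      push Not at hcon
      have v1 := core_const L k hk q G (by linarith) (by linarith)
      have v2 := core_const L k hk r' G (by linarith) (by linarith)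
      have v3 : (pos L r' k : ℝ) < pos L q k := by exact_mod_cast h
      have v4 := g3.2.1
      rcases lt_or_eq_of_le hcon with hcon' | hcon'
      · have := g3'.2.2 G hcon'
        linarith
      · have := g3'.2.1
        rw [hcon'] at this
        linarith
    have := hm (Sum.inr (Sum.inl ⟨k, by omega⟩)) hlt
    linarith

theorem block_deg {L d : ℕ} (hL : L % 2 = 1) (P : C L → Polynomial ℝ) (φ : C L → ℝ → ℝ)
    (hP : ∀ i, (P i).natDegree ≤ d) (hA : IsArrangement (fun i x => (P i).eval x))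
    (hm : ∀ i, StrictMono (φ i))
    (hr : ∀ i j x, (block L).f i x = (block L).f j x →
      (P i).eval (φ i x) = (P j).eval (φ i x)) : L ≤ d := by
  have hL1 : 1 ≤ L := by omega
  have hφ : ∀ i j x, i ≠ j → (block L).f i x = (block L).f j x → φ i x = φ j x :=
    fun i j x hij hx => phi_eq hA hr hij hx
  have hX : ∀ q q' : Fin (2 * L), (q : ℕ) < q' → ∃ X : ℝ,
      ((3 * mm L q q' + 2 : ℕ) : ℝ) < X ∧ X < ((3 * mm L q q' + 3 : ℕ) : ℝ) ∧
      HSA.Cr ((block L).f (Sum.inl q')) ((block L).f (Sum.inl q)) X :=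
    fun q q' h => core_cross L q q' h
  choose! X hX1 hX2 hX3 using hX
  have hY : ∀ q q' : Fin (2 * L), (q : ℕ) < q' →
      φ (Sum.inl q') (X q q') = φ (Sum.inl q) (X q q') := by
    intro q q' h
    refine hφ _ _ _ ?_ (hX3 q q' h).2.1
    intro h'
    have := Sum.inl_injective h'
    rw [this] at h
    exact lt_irrefl _ h
  have hs : ∀ q q' : Fin (2 * L), (q : ℕ) < q' → ∃ s : ℝ, (s = 1 ∨ s = -1) ∧
      Sg s (fun x => (P (Sum.inl q)).eval x) (fun x => (P (Sum.inl q')).eval x)
        (φ (Sum.inl q) (X q q')) := by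
    intro q q' h
    apply sg_exists
    have hne : (Sum.inl q : C L) ≠ Sum.inl q' := by
      intro h'
      have := Sum.inl_injective h'
      rw [this] at h
      exact lt_irrefl _ h
    exact (isolated hA hr hne (hX3 q q' h).2.1.symm).2
  choose! s hs1 hs2 using hs
  have hP1 : ∀ q q' : Fin (2 * L), (q : ℕ) < q' →
      (P (Sum.inl q)).eval (φ (Sum.inl q) (X q q')) =
      (P (Sum.inl q')).eval (φ (Sum.inl q) (X q q')) := by
    intro q q' h
    exact hr _ _ _ (hX3 q q' h).2.1.symm
  have h0 : ∀ q : Fin (2 * L), (block L).H (Sum.inl q) 0 = -((q : ℕ) : ℤ) := by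
    intro q
    simp only [block, BH, Nat.zero_div, Nat.zero_min, pos_zero q.2]
  have htri : ∀ q q' q'' : Fin (2 * L), (q : ℕ) < q' → (q' : ℕ) < q'' →
      s q q' = s q' q'' ∧ s q' q'' = s q q'' := by
    intro q q' q'' h h'
    have ho := (block L).three (Sum.inl q'') (Sum.inl q') (Sum.inl q)
      (by rw [h0, h0]; omega) (by rw [h0, h0]; omega)
      (hX3 q' q'' h') (hX3 q q' h) (hX3 q q'' (h.trans h'))
    refine sg_triple (hs1 q q' h) (hs1 q' q'' h') (hs1 q q'' (h.trans h')) (hs2 q q' h)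
      (hs2 q' q'' h') (hs2 q q'' (h.trans h')) (hP1 q q'' (h.trans h')) ?_
    rcases ho with ⟨o1, o2⟩ | ⟨o1, o2⟩
    · right
      have e1 := hm (Sum.inl q'') o1
      have e2 := hm (Sum.inl q) o2
      rw [hY q' q'' h', hY q q'' (h.trans h')] at e1
      exact ⟨e1, e2⟩
    · left
      have e1 := hm (Sum.inl q) o1
      have e2 := hm (Sum.inl q'') o2
      rw [hY q' q'' h', hY q q'' (h.trans h')] at e2
      exact ⟨e1, e2⟩
  -- the common sign
  let z : Fin (2 * L) := ⟨0, by omega⟩
  let o : Fin (2 * L) := ⟨1, by omega⟩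
  have hzo : (z : ℕ) < o := Nat.zero_lt_one
  have hz1 : ∀ q : Fin (2 * L), (z : ℕ) < q → s z q = s z o := by
    intro q hq
    by_cases h : q = o
    · rw [h]
    · have hlt : (o : ℕ) < q := by
        have h1 : (q : ℕ) ≠ 1 := fun h' => h (Fin.ext h')
        have h2 : (0 : ℕ) < q := hq
        show 1 < (q : ℕ)
        omega
      have := htri z o q hzo hlt
      rw [this.1, this.2]
  have hall : ∀ q q' : Fin (2 * L), (q : ℕ) < q' → s q q' = s z o := by
    intro q q' h
    by_cases hq : (q : ℕ) = 0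
    · have : q = z := Fin.ext hq
      rw [this]
      apply hz1
      show (0 : ℕ) < q'
      omega
    · have hlt : (z : ℕ) < q := by
        show (0 : ℕ) < q
        omega
      have := htri z q q' hlt h
      rw [this.2]
      exact hz1 q' (hlt.trans h)
  set S := s z o with hS
  -- cuts
  have hcut : ∀ k, k ≤ L → ∃ ξ : ℝ, ∀ q q' : Fin (2 * L), (q : ℕ) < q' →
      (mm L q q' < k → φ (Sum.inl q) (X q q') < ξ) ∧
      (k ≤ mm L q q' → ξ < φ (Sum.inl q) (X q q')) := by
    intro k hk
    obtain ⟨ξ, h1, h2⟩ := Order.exists_between_finsets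
      ((Finset.univ.filter (fun p : Fin (2 * L) × Fin (2 * L) =>
        (p.1 : ℕ) < p.2 ∧ mm L p.1 p.2 < k)).image
          (fun p => φ (Sum.inl p.1) (X p.1 p.2)))
      ((Finset.univ.filter (fun p : Fin (2 * L) × Fin (2 * L) =>
        (p.1 : ℕ) < p.2 ∧ k ≤ mm L p.1 p.2)).image
          (fun p => φ (Sum.inl p.1) (X p.1 p.2)))
      (by
        intro x hx y hy
        simp only [Finset.mem_image, Finset.mem_filter, Finset.mem_univ, true_and] at hx hy
        obtain ⟨⟨q, q'⟩, ⟨hq, hq'⟩, rfl⟩ := hx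
        obtain ⟨⟨r, r'⟩, ⟨hr, hr'⟩, rfl⟩ := hy
        simp only at hq hq' hr hr' ⊢
        rw [← hY r r' hr]
        exact cut_lt hk φ hm hφ q q' r r' hq' hr' _ _ (hX2 q q' hq) (hX1 r r' hr))
    refine ⟨ξ, fun q q' hq => ⟨fun h => ?_, fun h => ?_⟩⟩
    · apply h1
      rw [Finset.mem_image]
      exact ⟨(q, q'), Finset.mem_filter.2 ⟨Finset.mem_univ _, hq, h⟩, rfl⟩
    · apply h2
      rw [Finset.mem_image]
      exact ⟨(q, q'), Finset.mem_filter.2 ⟨Finset.mem_univ _, hq, h⟩, rfl⟩
  choose! ξ hξ using hcut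
  have hlt : ∀ k, k < L → ξ k < ξ (k + 1) := by
    intro k hk
    have hmk : mm L (L - 1 - k) (L + k) = k := by
      unfold mm
      split_ifs <;> omega
    have h1 := (hξ k hk.le ⟨L - 1 - k, by omega⟩ ⟨L + k, by omega⟩
      (by show L - 1 - k < L + k; omega)).2 (by show k ≤ mm L (L - 1 - k) (L + k); rw [hmk])
    have h2 := (hξ (k + 1) hk ⟨L - 1 - k, by omega⟩ ⟨L + k, by omega⟩
      (by show L - 1 - k < L + k; omega)).1 (by show mm L (L - 1 - k) (L + k) < k + 1; rw [hmk]; omega)
    exact h1.trans h2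
  -- the alternating combination
  let F : Polynomial ℝ := ∑ q : Fin (2 * L), Polynomial.C ((-1 : ℝ) ^ (q : ℕ)) * P (Sum.inl q)
  have hF : F.natDegree ≤ d := by
    apply Polynomial.natDegree_sum_le_of_forall_le
    intro q _
    exact (Polynomial.natDegree_C_mul_le _ _).trans (hP _)
  have hFe : ∀ x, F.eval x = ∑ q : Fin (2 * L), (-1 : ℝ) ^ (q : ℕ) * (P (Sum.inl q)).eval x := by
    intro x
    simp only [F, Polynomial.eval_finsetSum, Polynomial.eval_mul, Polynomial.eval_C]
  refine le_trans ?_ hF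
  apply natDegree_of_alternating F ξ L S hlt
  intro k hk
  have key := alt_sum L hL1 (fun q => pos L q k) (fun q => pos_bd q.2 hk)
    (fun q q' h => Fin.ext (pos_inj q.2 q'.2 hk h))
    (fun q => S * (P (Sum.inl q)).eval (ξ k))
    (by
      intro q q' h
      rcases lt_trichotomy (q : ℕ) (q' : ℕ) with hlt | hlt | hlt
      · have h1 : k ≤ mm L q q' := (pos_lt_iff hlt q'.2 hk).1 h
        have h2 := (hξ k hk q q' hlt).2 h1
        have h3 := (hs2 q q' hlt).1 _ h2
        rw [hall q q' hlt] at h3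
        linarith
      · rw [hlt] at h; exact absurd h (lt_irrefl _)
      · have h1 : mm L q' q < k := (pos_lt_iff' hlt q.2 hk).1 h
        have h2 := (hξ k hk q' q hlt).1 h1
        have h3 := (hs2 q' q hlt).2 _ h2
        rw [hall q' q hlt] at h3
        linarith)
  have e : S * ((-1) ^ k * F.eval (ξ k))
      = ∑ q : Fin (2 * L), (-1 : ℝ) ^ (pos L q k) * (S * (P (Sum.inl q)).eval (ξ k)) := by
    rw [hFe, Finset.mul_sum, Finset.mul_sum]
    apply Finset.sum_congr rfl
    intro q _
    have hpar := pos_parity hL q.2 hk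
    have h1 : (-1 : ℝ) ^ (pos L q k) = (-1) ^ (k + (q : ℕ)) := by
      rw [neg_one_pow_eq_pow_mod_two, neg_one_pow_eq_pow_mod_two (n := k + (q : ℕ))]
      congr 1
      omega
    rw [h1, pow_add]
    ring
  rw [e]
  exact key

end Pool.Agent.H182R2.PL
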