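import Mathlib

/-!
Pseudoline arrangements described by integer heights at integer times
(piecewise linear interpolation).
-/

namespace Pool.Agent.H182R2.PL

/-- Discrete data of a simple pseudoline arrangement: heights at the times `0, 1, 2, ...`. -/
structure HSA (ι : Type) where
  T : ℕ
  M : ℤ
  H : ι → ℕ → ℤ
  M0 : 0 ≤ M
  bd : ∀ i t, -M ≤ H i t ∧ H i t ≤ M
  stab : ∀ i t, T ≤ t → H i t = H i T
  inj0 : ∀ i j, H i 0 = H j 0 → i = j
  swap : ∀ i j, H i 0 < H j 0 →
    ∃ c, c < T ∧ (∀ t, t ≤ c → H i t < H j t) ∧ (∀ t, c < t → H j t < H i t)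
  tri : ∀ i j k t, H i t < H j t → H j t < H k t →
    H k (t + 1) < H j (t + 1) → H j (t + 1) < H i (t + 1) → False

/-- truncation to `[0,1]` -/
noncomputable def clamp (y : ℝ) : ℝ := max 0 (min y 1)

lemma clamp_cont : Continuous clamp := by
  unfold clamp; fun_prop

lemma clamp_of_nonpos {y : ℝ} (h : y ≤ 0) : clamp y = 0 := by
  unfold clamp
  rw [min_eq_left (by linarith), max_eq_left h]

lemma clamp_of_one_le {y : ℝ} (h : 1 ≤ y) : clamp y = 1 := by
  unfold clamp
  rw [min_eq_right h]; norm_num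

lemma clamp_of_mem {y : ℝ} (h0 : 0 ≤ y) (h1 : y ≤ 1) : clamp y = y := by
  unfold clamp
  rw [min_eq_left h1, max_eq_right h0]

namespace HSA

variable {ι : Type} (A : HSA ι)

/-- the curves of the arrangement -/
noncomputable def f (i : ι) (x : ℝ) : ℝ :=
  (A.H i 0 : ℝ) + ∑ t ∈ Finset.range A.T, ((A.H i (t + 1) : ℝ) - (A.H i t : ℝ)) * clamp (x - t)

lemma f_cont (i : ι) : Continuous (A.f i) := by
  unfold f
  have h := clamp_cont
  fun_prop

lemma f_of_nonpos (i : ι) {x : ℝ} (hx : x ≤ 0) : A.f i x = A.H i 0 := by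
  unfold f
  rw [Finset.sum_eq_zero]
  · ring
  · intro t _
    rw [clamp_of_nonpos, mul_zero]
    have : (0 : ℝ) ≤ t := Nat.cast_nonneg t
    linarith

lemma partial_sum (i : ι) (x : ℝ) (t : ℕ) (h0 : (t : ℝ) ≤ x) (h1 : x ≤ t + 1) (n : ℕ) :
    ∑ s ∈ Finset.range n, ((A.H i (s + 1) : ℝ) - (A.H i s : ℝ)) * clamp (x - s)
      = if n ≤ t then (A.H i n : ℝ) - A.H i 0
        else (A.H i t : ℝ) - A.H i 0 + (x - t) * ((A.H i (t + 1) : ℝ) - A.H i t) := by
  induction n with
  | zero => simp
  | succ n ih =>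
    rw [Finset.sum_range_succ, ih]
    by_cases h : n + 1 ≤ t
    · rw [if_pos (by omega), if_pos h, clamp_of_one_le]
      · ring
      · have : ((n + 1 : ℕ) : ℝ) ≤ t := by exact_mod_cast h
        push_cast at this
        linarith
    · by_cases h' : n = t
      · subst h'
        rw [if_pos le_rfl, if_neg h, clamp_of_mem (by linarith) (by linarith)]
        ring
      · rw [if_neg (by omega), if_neg h, clamp_of_nonpos]
        · ring
        · have : ((t + 1 : ℕ) : ℝ) ≤ n := by exact_mod_cast (by omega : t + 1 ≤ n)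
          push_cast at this
          linarith

lemma f_eq (i : ι) (x : ℝ) (t : ℕ) (h0 : (t : ℝ) ≤ x) (h1 : x ≤ t + 1) :
    A.f i x = (A.H i t : ℝ) + (x - t) * ((A.H i (t + 1) : ℝ) - A.H i t) := by
  unfold f
  rw [A.partial_sum i x t h0 h1 A.T]
  by_cases h : A.T ≤ t
  · rw [if_pos h, A.stab i t h, A.stab i (t + 1) (by omega)]
    ring
  · rw [if_neg h]; ring

/-- difference formula -/
lemma sub_eq (i j : ι) (x : ℝ) (t : ℕ) (h0 : (t : ℝ) ≤ x) (h1 : x ≤ t + 1) :
    A.f j x - A.f i x = (1 - (x - t)) * ((A.H j t : ℝ) - A.H i t)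
      + (x - t) * ((A.H j (t + 1) : ℝ) - A.H i (t + 1)) := by
  rw [A.f_eq i x t h0 h1, A.f_eq j x t h0 h1]; ring

lemma lt_before (i j : ι) (c : ℕ) (hc : ∀ t, t ≤ c → A.H i t < A.H j t) (x : ℝ) (hx : x ≤ c) :
    A.f i x < A.f j x := by
  rcases le_or_gt x 0 with h | h
  · rw [A.f_of_nonpos i h, A.f_of_nonpos j h]
    exact_mod_cast hc 0 (Nat.zero_le _)
  · have h0 := Nat.floor_le h.le
    have h1 := (Nat.lt_floor_add_one x).le
    have hle : ⌊x⌋₊ ≤ c := by
      have := Nat.floor_le_floor hx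
      simpa using this
    rcases Nat.eq_or_lt_of_le hle with heq | hlt
    · have hxc : x = c := le_antisymm hx (by rw [← heq]; exact h0)
      have := A.sub_eq i j x c (by rw [hxc]) (by rw [hxc]; linarith)
      rw [hxc] at this
      have h2 : (A.H i c : ℝ) < A.H j c := by exact_mod_cast hc c le_rfl
      rw [hxc]
      have h3 : A.f j c - A.f i c = (A.H j c : ℝ) - A.H i c := by rw [this]; ring
      linarith
    · have := A.sub_eq i j x ⌊x⌋₊ h0 h1
      have h2 : (A.H i ⌊x⌋₊ : ℝ) < A.H j ⌊x⌋₊ := by exact_mod_cast hc _ hle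
      have h3 : (A.H i (⌊x⌋₊ + 1) : ℝ) < A.H j (⌊x⌋₊ + 1) := by exact_mod_cast hc _ hlt
      have h4 : 0 ≤ x - ⌊x⌋₊ := by linarith
      have h5 : x - ⌊x⌋₊ < 1 := by have := Nat.lt_floor_add_one x; linarith
      have h6 : 0 < (1 - (x - ⌊x⌋₊)) * ((A.H j ⌊x⌋₊ : ℝ) - A.H i ⌊x⌋₊) :=
        mul_pos (by linarith) (by linarith)
      have h7 : 0 ≤ (x - ⌊x⌋₊) * ((A.H j (⌊x⌋₊ + 1) : ℝ) - A.H i (⌊x⌋₊ + 1)) :=
        mul_nonneg h4 (by linarith)
      linarith

lemma lt_after (i j : ι) (c : ℕ) (hc : ∀ t, c < t → A.H j t < A.H i t) (x : ℝ)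
    (hx : (c : ℝ) + 1 ≤ x) : A.f j x < A.f i x := by
  have hx0 : 0 ≤ x := by have : (0 : ℝ) ≤ c := Nat.cast_nonneg c; linarith
  have h0 := Nat.floor_le hx0
  have h1 := (Nat.lt_floor_add_one x).le
  have hle : c + 1 ≤ ⌊x⌋₊ := by
    apply Nat.le_floor
    push_cast
    exact hx
  have := A.sub_eq i j x ⌊x⌋₊ h0 h1
  have h2 : (A.H j ⌊x⌋₊ : ℝ) < A.H i ⌊x⌋₊ := by exact_mod_cast hc _ (by omega)
  have h3 : (A.H j (⌊x⌋₊ + 1) : ℝ) < A.H i (⌊x⌋₊ + 1) := by exact_mod_cast hc _ (by omega)
  have h4 : 0 ≤ x - ⌊x⌋₊ := by linarith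
  have h5 : x - ⌊x⌋₊ < 1 := by have := Nat.lt_floor_add_one x; linarith
  have h6 : 0 < (1 - (x - ⌊x⌋₊)) * ((A.H i ⌊x⌋₊ : ℝ) - A.H j ⌊x⌋₊) :=
    mul_pos (by linarith) (by linarith)
  have h7 : 0 ≤ (x - ⌊x⌋₊) * ((A.H i (⌊x⌋₊ + 1) : ℝ) - A.H j (⌊x⌋₊ + 1)) :=
    mul_nonneg h4 (by linarith)
  nlinarith

/-- `i` is below `j` before `X` and above after `X`. -/
def Cr (f g : ℝ → ℝ) (X : ℝ) : Prop :=
  (∀ x, x < X → f x < g x) ∧ f X = g X ∧ (∀ x, X < x → g x < f x)

/-- the crossing abscissa in the step `c` -/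
noncomputable def xc (i j : ι) (c : ℕ) : ℝ :=
  c + ((A.H j c : ℝ) - A.H i c) /
    (((A.H j c : ℝ) - A.H i c) + ((A.H i (c + 1) : ℝ) - A.H j (c + 1)))

lemma cross (i j : ι) (c : ℕ) (h1 : ∀ t, t ≤ c → A.H i t < A.H j t)
    (h2 : ∀ t, c < t → A.H j t < A.H i t) :
    (c : ℝ) < A.xc i j c ∧ A.xc i j c < c + 1 ∧ Cr (A.f i) (A.f j) (A.xc i j c) := by
  set a : ℝ := (A.H j c : ℝ) - A.H i c with ha
  set b : ℝ := (A.H i (c + 1) : ℝ) - A.H j (c + 1) with hb
  have ha0 : 0 < a := by
    have : (A.H i c : ℝ) < A.H j c := by exact_mod_cast h1 c le_rfl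
    rw [ha]; linarith
  have hb0 : 0 < b := by
    have : (A.H j (c + 1) : ℝ) < A.H i (c + 1) := by exact_mod_cast h2 (c + 1) (by omega)
    rw [hb]; linarith
  have hX : A.xc i j c = c + a / (a + b) := rfl
  have hq0 : 0 < a / (a + b) := by positivity
  have hq1 : a / (a + b) < 1 := by rw [div_lt_one (by positivity)]; linarith
  have key : ∀ x : ℝ, (c : ℝ) ≤ x → x ≤ c + 1 →
      A.f j x - A.f i x = (a + b) * (A.xc i j c - x) := by
    intro x hx1 hx2
    rw [A.sub_eq i j x c hx1 hx2, hX]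
    have : (a + b) * (c + a / (a + b) - x) = a - (a + b) * (x - c) := by
      field_simp; ring
    rw [this]
    have e1 : (A.H j (c + 1) : ℝ) - A.H i (c + 1) = - b := by rw [hb]; ring
    rw [e1]; ring
  refine ⟨by rw [hX]; linarith, by rw [hX]; linarith, ?_, ?_, ?_⟩
  · intro x hx
    rcases le_or_gt x c with h | h
    · exact A.lt_before i j c h1 x h
    · have := key x h.le (by rw [hX] at hx; linarith)
      have h3 : 0 < (a + b) * (A.xc i j c - x) := mul_pos (by linarith) (by linarith)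
      linarith
  · have := key (A.xc i j c) (by rw [hX]; linarith) (by rw [hX]; linarith)
    rw [sub_self, mul_zero] at this
    linarith
  · intro x hx
    rcases le_or_gt x (c + 1) with h | h
    · have := key x (by rw [hX] at hx; linarith) h
      have h3 : (a + b) * (A.xc i j c - x) < 0 := mul_neg_of_pos_of_neg (by linarith) (by linarith)
      linarith
    · exact A.lt_after i j c h2 x h.le

lemma exists_cross (i j : ι) (h : A.H i 0 < A.H j 0) :
    ∃ (c : ℕ) (X : ℝ), (∀ t, t ≤ c → A.H i t < A.H j t) ∧ (∀ t, c < t → A.H j t < A.H i t) ∧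
      (c : ℝ) < X ∧ X < c + 1 ∧ Cr (A.f i) (A.f j) X := by
  obtain ⟨c, _, h1, h2⟩ := A.swap i j h
  obtain ⟨h3, h4, h5⟩ := A.cross i j c h1 h2
  exact ⟨c, A.xc i j c, h1, h2, h3, h4, h5⟩

lemma Cr.eq_iff {f g : ℝ → ℝ} {X : ℝ} (h : Cr f g X) {x : ℝ} : f x = g x ↔ x = X := by
  constructor
  · intro hx
    rcases lt_trichotomy x X with h' | h' | h'
    · exact absurd hx (h.1 x h').ne
    · exact h'
    · exact absurd hx (h.2.2 x h').ne'
  · rintro rfl; exact h.2.1

/-- sorted version of simplicity -/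
lemma no_triple (i j k : ι) (hij : A.H i 0 < A.H j 0) (hjk : A.H j 0 < A.H k 0) (x : ℝ)
    (h1 : A.f i x = A.f j x) (h2 : A.f j x = A.f k x) : False := by
  obtain ⟨c1, X1, a1, b1, p1, q1, r1⟩ := A.exists_cross i j hij
  obtain ⟨c2, X2, a2, b2, p2, q2, r2⟩ := A.exists_cross j k hjk
  have e1 : x = X1 := r1.eq_iff.1 h1
  have e2 : x = X2 := r2.eq_iff.1 h2
  have hc : c1 = c2 := by
    have h3 : (c1 : ℝ) < c2 + 1 := by linarith
    have h4 : (c2 : ℝ) < c1 + 1 := by linarith
    have h5 : c1 < c2 + 1 := by exact_mod_cast h3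
    have h6 : c2 < c1 + 1 := by exact_mod_cast h4
    omega
  subst hc
  exact A.tri i j k c1 (a1 c1 le_rfl) (a2 c1 le_rfl) (b2 (c1 + 1) (by omega))
    (b1 (c1 + 1) (by omega))

end HSA

/-- transport along an equivalence -/
def HSA.map {ι κ : Type} (A : HSA ι) (e : κ ≃ ι) : HSA κ where
  T := A.T
  M := A.M
  H := fun k t => A.H (e k) t
  M0 := A.M0
  bd := fun k t => A.bd (e k) t
  stab := fun k t h => A.stab (e k) t h
  inj0 := fun i j h => e.injective (A.inj0 _ _ h)
  swap := fun i j h => A.swap _ _ h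
  tri := fun i j k t => A.tri _ _ _ t

lemma HSA.map_f {ι κ : Type} (A : HSA ι) (e : κ ≃ ι) (k : κ) : (A.map e).f k = A.f (e k) := rfl

/-- the trivial arrangement with one curve -/
def HSA.one : HSA Unit where
  T := 0
  M := 0
  H := fun _ _ => 0
  M0 := le_rfl
  bd := by intro i t; simp
  stab := by intro i t _; rfl
  inj0 := by intro i j _; rfl
  swap := by intro _ _ h; exact absurd h (lt_irrefl _)
  tri := by intro _ _ _ _ h; exact absurd h (lt_irrefl _)

/-- the empty arrangement -/
def HSA.zero : HSA (Fin 0) where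
  T := 0
  M := 0
  H := fun _ _ => 0
  M0 := le_rfl
  bd := by intro i t; simp
  stab := by intro i t _; rfl
  inj0 := by intro i j _; exact i.elim0
  swap := by intro i j h; exact i.elim0
  tri := by intro i j k t h; exact i.elim0

/-- two arrangements one after the other -/
def HSA.sum {ι κ : Type} (A : HSA ι) (B : HSA κ) : HSA (ι ⊕ κ) where
  T := A.T + B.T + 1
  M := 2 * (A.M + B.M + 1)
  H := fun i t => match i with
    | Sum.inl i => (if t ≤ A.T + B.T then (A.M + B.M + 1) else -(A.M + B.M + 1)) + A.H i t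
    | Sum.inr j => (if t ≤ A.T + B.T then -(A.M + B.M + 1) else (A.M + B.M + 1)) + B.H j (t - A.T)
  M0 := by have := A.M0; have := B.M0; omega
  bd := by
    have hA := A.M0
    have hB := B.M0
    rintro (i | j) t
    · have h1 := A.bd i t
      dsimp only
      split_ifs <;> constructor <;> omega
    · have h1 := B.bd j (t - A.T)
      dsimp only
      split_ifs <;> constructor <;> omega
  stab := by
    rintro (i | j) t h
    · dsimp only
      rw [if_neg (by omega), if_neg (by omega), A.stab i t (by omega),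
        A.stab i (A.T + B.T + 1) (by omega)]
    · dsimp only
      rw [if_neg (by omega), if_neg (by omega), B.stab j (t - A.T) (by omega),
        B.stab j (A.T + B.T + 1 - A.T) (by omega)]
  inj0 := by
    have hA := A.M0
    have hB := B.M0
    rintro (i | i) (j | j) h
    · dsimp only at h
      rw [if_pos (by omega)] at h
      rw [A.inj0 i j (by omega)]
    · dsimp only at h
      rw [if_pos (by omega), if_pos (by omega)] at h
      have h1 := A.bd i 0
      have h2 := B.bd j (0 - A.T)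
      omega
    · dsimp only at h
      rw [if_pos (by omega), if_pos (by omega)] at h
      have h1 := A.bd j 0
      have h2 := B.bd i (0 - A.T)
      omega
    · dsimp only at h
      rw [if_pos (by omega), Nat.zero_sub] at h
      rw [B.inj0 i j (by omega)]
  swap := by
    have hA := A.M0
    have hB := B.M0
    rintro (i | i) (j | j) h
    · dsimp only at h
      rw [if_pos (by omega)] at h
      obtain ⟨c, hc, h1, h2⟩ := A.swap i j (by omega)
      refine ⟨c, by omega, ?_, ?_⟩
      · intro t ht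
        have := h1 t ht
        dsimp only
        omega
      · intro t ht
        have := h2 t ht
        dsimp only
        omega
    · exfalso
      dsimp only at h
      rw [if_pos (by omega), if_pos (by omega)] at h
      have h1 := A.bd i 0
      have h2 := B.bd j (0 - A.T)
      omega
    · refine ⟨A.T + B.T, by omega, ?_, ?_⟩
      · intro t ht
        have h1 := A.bd j t
        have h2 := B.bd i (t - A.T)
        dsimp only
        rw [if_pos ht, if_pos ht]
        omega
      · intro t ht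
        have h1 := A.bd j t
        have h2 := B.bd i (t - A.T)
        dsimp only
        rw [if_neg (by omega), if_neg (by omega)]
        omega
    · dsimp only at h
      rw [if_pos (by omega), Nat.zero_sub] at h
      obtain ⟨c, hc, h1, h2⟩ := B.swap i j (by omega)
      refine ⟨A.T + c, by omega, ?_, ?_⟩
      · intro t ht
        have := h1 (t - A.T) (by omega)
        dsimp only
        omega
      · intro t ht
        have := h2 (t - A.T) (by omega)
        dsimp only
        omega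
  tri := by
    have hA := A.M0
    have hB := B.M0
    -- a pair of `inl` (resp. `inr`) indices does not swap in the last step
    have hl : ∀ (i j : ι) (t : ℕ), A.T ≤ t → A.H i t < A.H j t → ¬ A.H j (t + 1) < A.H i (t + 1) := by
      intro i j t ht h h'
      rw [A.stab i t ht, A.stab j t ht] at h
      rw [A.stab i (t + 1) (by omega), A.stab j (t + 1) (by omega)] at h'
      omega
    have hr : ∀ (i j : κ) (t : ℕ), (t < A.T ∨ A.T + B.T ≤ t) →
        B.H i (t - A.T) < B.H j (t - A.T) → ¬ B.H j (t + 1 - A.T) < B.H i (t + 1 - A.T) := by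
      intro i j t ht h h'
      rcases ht with ht | ht
      · rw [show t - A.T = 0 by omega] at h
        rw [show t + 1 - A.T = 0 by omega] at h'
        omega
      · rw [B.stab i (t - A.T) (by omega), B.stab j (t - A.T) (by omega)] at h
        rw [B.stab i (t + 1 - A.T) (by omega), B.stab j (t + 1 - A.T) (by omega)] at h'
        omega
    -- mixed pairs swap only in the last step
    have hm : ∀ (i : ι) (j : κ) (t : ℕ),
        (if t ≤ A.T + B.T then -(A.M + B.M + 1) else (A.M + B.M + 1)) + B.H j (t - A.T) <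
          (if t ≤ A.T + B.T then (A.M + B.M + 1) else -(A.M + B.M + 1)) + A.H i t ↔
        t ≤ A.T + B.T := by
      intro i j t
      have h1 := A.bd i t
      have h2 := B.bd j (t - A.T)
      by_cases h : t ≤ A.T + B.T
      · rw [if_pos h, if_pos h]
        constructor
        · intro _; exact h
        · intro _; omega
      · rw [if_neg h, if_neg h]
        constructor
        · intro h'; omega
        · intro h'; omega
    have hm' : ∀ (i : ι) (j : κ) (t : ℕ),
        (if t ≤ A.T + B.T then (A.M + B.M + 1) else -(A.M + B.M + 1)) + A.H i t <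
          (if t ≤ A.T + B.T then -(A.M + B.M + 1) else (A.M + B.M + 1)) + B.H j (t - A.T) ↔
        ¬ t ≤ A.T + B.T := by
      intro i j t
      have h1 := A.bd i t
      have h2 := B.bd j (t - A.T)
      by_cases h : t ≤ A.T + B.T
      · rw [if_pos h, if_pos h]
        constructor
        · intro _; omega
        · intro h'; omega
      · rw [if_neg h, if_neg h]
        constructor
        · intro h'; omega
        · intro h'; omega
    rintro (i | i) (j | j) (k | k) t h1 h2 h3 h4
    · dsimp only at h1 h2 h3 h4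
      exact A.tri i j k t (by omega) (by omega) (by omega) (by omega)
    · dsimp only at h1 h2 h3 h4
      have e1 := (hm' _ _ _).1 h2
      have e2 := (hm _ _ _).1 h3
      omega
    · dsimp only at h1 h2 h3 h4
      have e1 := (hm' _ _ _).1 h1
      have e2 := (hm _ _ _).1 h4
      omega
    · dsimp only at h1 h2 h3 h4
      have e1 := (hm' _ _ _).1 h1
      have e2 := (hm _ _ _).1 h4
      omega
    · dsimp only at h1 h2 h3 h4
      have e1 := (hm _ _ _).1 h1
      have e2 := (hm' _ _ _).1 h4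
      exact hl j k t (by omega) (by omega) (by omega)
    · dsimp only at h1 h2 h3 h4
      have e1 := (hm _ _ _).1 h1
      have e2 := (hm' _ _ _).1 h4
      have e3 := (hm' _ _ _).1 h2
      omega
    · dsimp only at h1 h2 h3 h4
      have e1 := (hm _ _ _).1 h2
      have e2 := (hm' _ _ _).1 h3
      exact hr i j t (by omega) (by omega) (by omega)
    · dsimp only at h1 h2 h3 h4
      have hlt : A.T ≤ t ∨ t < A.T := le_or_gt _ _
      rcases hlt with hlt | hlt
      · rw [show t + 1 - A.T = (t - A.T) + 1 by omega] at h3 h4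
        exact B.tri i j k (t - A.T) (by omega) (by omega) (by omega) (by omega)
      · exact hr i j t (Or.inl hlt) (by omega) (by omega)

/-- differences of curves of the first part are unchanged -/
lemma HSA.sum_f_inl {ι κ : Type} (A : HSA ι) (B : HSA κ) (i j : ι) (x : ℝ) :
    (A.sum B).f (Sum.inl i) x - (A.sum B).f (Sum.inl j) x = A.f i x - A.f j x := by
  rcases le_or_gt x 0 with h | h
  · rw [HSA.f_of_nonpos _ _ h, HSA.f_of_nonpos _ _ h, HSA.f_of_nonpos _ _ h,
      HSA.f_of_nonpos _ _ h]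
    simp only [HSA.sum]
    push_cast
    ring
  · have h0 := Nat.floor_le h.le
    have h1 := (Nat.lt_floor_add_one x).le
    rw [HSA.f_eq _ _ x ⌊x⌋₊ h0 h1, HSA.f_eq _ _ x ⌊x⌋₊ h0 h1, HSA.f_eq _ _ x ⌊x⌋₊ h0 h1,
      HSA.f_eq _ _ x ⌊x⌋₊ h0 h1]
    simp only [HSA.sum]
    push_cast
    ring

/-- differences of curves of the second part are shifted in time -/
lemma HSA.sum_f_inr {ι κ : Type} (A : HSA ι) (B : HSA κ) (i j : κ) (x : ℝ) :
    (A.sum B).f (Sum.inr i) (x + A.T) - (A.sum B).f (Sum.inr j) (x + A.T)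
      = B.f i x - B.f j x := by
  rcases le_or_gt (x + A.T) 0 with h | h
  · have hx : x ≤ 0 := by have : (0 : ℝ) ≤ A.T := Nat.cast_nonneg _; linarith
    rw [HSA.f_of_nonpos _ _ h, HSA.f_of_nonpos _ _ h, HSA.f_of_nonpos _ _ hx,
      HSA.f_of_nonpos _ _ hx]
    simp only [HSA.sum, Nat.zero_sub]
    push_cast
    ring
  · have h0 := Nat.floor_le h.le
    have h1 := (Nat.lt_floor_add_one (x + A.T)).le
    rw [HSA.f_eq _ _ (x + A.T) ⌊x + A.T⌋₊ h0 h1, HSA.f_eq _ _ (x + A.T) ⌊x + A.T⌋₊ h0 h1]
    rcases lt_or_ge x 0 with hx | hx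
    · rw [HSA.f_of_nonpos _ _ hx.le, HSA.f_of_nonpos _ _ hx.le]
      have hfl : ⌊x + A.T⌋₊ < A.T := by
        rw [Nat.floor_lt h.le]; linarith
      simp only [HSA.sum]
      rw [show ⌊x + A.T⌋₊ - A.T = 0 by omega, show ⌊x + A.T⌋₊ + 1 - A.T = 0 by omega]
      push_cast
      ring
    · have hfl : ⌊x + A.T⌋₊ = ⌊x⌋₊ + A.T := Nat.floor_add_natCast hx _
      have g0 := Nat.floor_le hx
      have g1 := (Nat.lt_floor_add_one x).le
      rw [HSA.f_eq _ _ x ⌊x⌋₊ g0 g1, HSA.f_eq _ _ x ⌊x⌋₊ g0 g1]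
      simp only [HSA.sum, hfl]
      rw [show ⌊x⌋₊ + A.T - A.T = ⌊x⌋₊ by omega, show ⌊x⌋₊ + A.T + 1 - A.T = ⌊x⌋₊ + 1 by omega]
      push_cast
      ring

/-- a simple arrangement with `n` curves exists for every `n` -/
lemma HSA.exists_fin (n : ℕ) : Nonempty (HSA (Fin n)) := by
  induction n with
  | zero => exact ⟨HSA.zero⟩
  | succ n ih =>
    obtain ⟨A⟩ := ih
    exact ⟨(A.sum HSA.one).map (Fintype.equivOfCardEq (by simp))⟩

end Pool.Agent.H182R2.PL
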