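import Pool.Agent.H182R2.PL.Deg

/-!
Assembly: two consecutive blocks, one of which is uniformly oriented.
-/

namespace Pool.Agent.H182R2.PL

theorem block_deg' {L d : ℕ} (hL : L % 2 = 1) (P : C L → Polynomial ℝ) (φ : C L → ℝ → ℝ)
    (hP : ∀ i, (P i).natDegree ≤ d) (hA : IsArrangement (fun i x => (P i).eval x))
    (hm : (∀ i, StrictMono (φ i)) ∨ (∀ i, StrictAnti (φ i)))
    (hr : ∀ i j x, (block L).f i x = (block L).f j x →
      (P i).eval (φ i x) = (P j).eval (φ i x)) : L ≤ d := by
  rcases hm with hm | hm
  · exact block_deg hL P φ hP hA hm hr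
  · refine block_deg hL (fun i => (P i).comp (-Polynomial.X)) (fun i x => - φ i x) ?_ ?_ ?_ ?_
    · intro i
      rw [Polynomial.natDegree_comp, Polynomial.natDegree_neg, Polynomial.natDegree_X, mul_one]
      exact hP i
    · refine ⟨fun i => Polynomial.continuous _, fun i j hij => ?_⟩
      obtain ⟨x, h1, h2, h3⟩ := hA.2 i j hij
      refine ⟨-x, ?_, ?_, ?_⟩
      · simpa using h1
      · intro y hy
        have := h2 (-y) (by simpa using hy)
        linarith
      · intro y z hy hz
        have := h3 (-z) (-y) (by linarith) (by linarith)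
        simp only [Polynomial.eval_comp, Polynomial.eval_neg, Polynomial.eval_X]
        rw [mul_comm]
        exact this
    · intro i x y hxy
      have := hm i hxy
      simp only
      linarith
    · intro i j x hx
      have := hr i j x hx
      simpa using this

theorem two_blocks {L d : ℕ} (hL : L % 2 = 1) (h : Rl d ((block L).sum (block L)).f) : L ≤ d := by
  obtain ⟨P, φ, hP, hA, hm, hr⟩ := h
  rcases (block L).uniform (block L) φ hm (fun i j x hij hx => phi_eq hA hr hij hx) with h | h
  · refine block_deg' hL (fun i => P (Sum.inl i)) (fun i => φ (Sum.inl i)) (fun i => hP _)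
      ⟨fun i => hA.1 _, fun i j hij => hA.2 _ _ (fun h => hij (Sum.inl_injective h))⟩ h ?_
    intro i j x hx
    apply hr
    have := (block L).sum_f_inl (block L) i j x
    linarith
  · refine block_deg' hL (fun i => P (Sum.inr i)) (fun i x => φ (Sum.inr i) (x + (block L).T))
      (fun i => hP _)
      ⟨fun i => hA.1 _, fun i j hij => hA.2 _ _ (fun h => hij (Sum.inr_injective h))⟩ ?_ ?_
    · rcases h with h | h
      · left
        intro i x y hxy
        exact h i (by linarith)
      · right
        intro i x y hxy
        exact h i (by linarith)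
    · intro i j x hx
      apply hr
      have := (block L).sum_f_inr (block L) i j x
      linarith

theorem main (n : ℕ) : ∃ f : Fin n → ℝ → ℝ, IsArrangement f ∧ IsSimple f ∧
    ∀ d, Stretchable d f → n ≤ 8 * d + 19 := by
  rcases lt_or_ge n 12 with hn | hn
  · obtain ⟨A⟩ := HSA.exists_fin n
    exact ⟨A.f, A.isArrangement, A.isSimple, fun d _ => by omega⟩
  · obtain ⟨L, hL⟩ : ∃ L, L = 2 * ((n - 12) / 16) + 1 := ⟨_, rfl⟩
    obtain ⟨E⟩ := HSA.exists_fin (n - (8 * L + 4))
    have hcard : Fintype.card (Fin n) =
        Fintype.card ((C L ⊕ C L) ⊕ Fin (n - (8 * L + 4))) := by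
      simp only [Fintype.card_sum, Fintype.card_fin]
      omega
    let e : Fin n ≃ (C L ⊕ C L) ⊕ Fin (n - (8 * L + 4)) := Fintype.equivOfCardEq hcard
    let A := (((block L).sum (block L)).sum E).map e
    refine ⟨A.f, A.isArrangement, A.isSimple, fun d hd => ?_⟩
    have h1 : Rl d A.f := rl_of_stretchable A.f_cont hd
    have h2 : Rl d ((block L).sum (block L)).f := by
      refine Rl.restrict (fun i => e.symm (Sum.inl i)) ?_ 0 ?_ h1
      · intro i j hij
        exact Sum.inl_injective (e.symm.injective hij)
      · intro i j x hx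
        rw [HSA.map_f, HSA.map_f, Equiv.apply_symm_apply, Equiv.apply_symm_apply, add_zero]
        have := ((block L).sum (block L)).sum_f_inl E i j x
        linarith
    have h3 := two_blocks (by omega) h2
    omega

end Pool.Agent.H182R2.PL
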